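import Pool.Agent.V11228.CMIFin

/-!
# Constrained matrix invertibility over the reals is `∃ℝ`-complete

This answers Q1 of MP_49d20d_lc affirmatively.

The reduction uses patterns in block form with three columns of `A` and three rows of `B` that are
completely free.  A solution then amounts to vectors `P i` and linear forms `F i` on `ℝ³` such that
`F i (P i) ≠ 0` for all `i` and `F i (P z) = 0` for all prescribed pairs `(i, z)`; the matrices
are `[[1, -F], [P, 1 - P F]]` and its inverse `[[1 - F P, F], [-P, 1]]`.  These systems can copy a
point of the projective plane, and thus express distinctness, collinearity and non-collinearity of
points; collinearity constraints on distinct points are universal.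
-/

open Pool.Agent.NPC Pool.Agent.NPC.ER Pool.Agent.NPC.V11228

/-- Constrained matrix invertibility over the reals is `∃ℝ`-complete under polynomial-time
many-one reductions. -/
theorem Pool.Agent.Results.MP_49d20d_lc.InvertibilityComplete.result :
    ERComplete (lang CM.CMI) :=
  CM.cmi_complete_ER
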